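import Pool.Agent.W402.HI.Defs
import Pool.Agent.H307R3.RO.Lom

/-! Non-scalar compact operators have nontrivial closed hyperinvariant subspaces (Lomonosov;
Hilden's proof). -/

set_option autoImplicit false

namespace Pool.Agent.W577.HI.G1

open Pool.Agent.W402.HI

theorem main : P_G1 := by
  classical
  intro X _ _ _ K hK hns
  by_contra hno
  have hirr : ∀ M : Submodule ℂ X, IsClosed (M : Set X) →
      (∀ Q : X →L[ℂ] X, Q * K = K * Q → ∀ x ∈ M, Q x ∈ M) → M = ⊥ ∨ M = ⊤ := by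
    intro M hM hQ
    by_contra hcon
    push Not at hcon
    exact hno ⟨M, hM, hcon.1, hcon.2, hQ⟩
  have hK0 : K ≠ 0 := by
    rintro rfl
    exact hns ⟨0, by simp⟩
  by_cases hev : ∀ c : ℂ, c ≠ 0 → ∀ v : X, K v = c • v → v = 0
  · -- a vector moved far away
    have hKn : 0 < ‖K‖ := norm_pos_iff.2 hK0
    obtain ⟨x₀, hx₀⟩ : ∃ x₀ : X, ‖K‖ < ‖K x₀‖ := by
      obtain ⟨x, hx⟩ : ∃ x, K x ≠ 0 := by
        by_contra hcon
        push Not at hcon
        exact hK0 (ContinuousLinearMap.ext hcon)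
      obtain ⟨n, hn⟩ := exists_nat_gt (‖K‖ / ‖K x‖)
      refine ⟨(n : ℂ) • x, ?_⟩
      rw [map_smul, norm_smul, Complex.norm_natCast]
      rwa [div_lt_iff₀ (norm_pos_iff.2 hx)] at hn
    have hx₀1 : 1 < ‖x₀‖ := by
      have h1 := K.le_opNorm x₀
      nlinarith
    set U : Set X := Metric.closedBall x₀ 1 with hU
    have hUlow : ∀ y ∈ U, ‖x₀‖ - 1 ≤ ‖y‖ := by
      intro y hy
      have h1 : ‖y - x₀‖ ≤ 1 := mem_closedBall_iff_norm.1 hy
      have h2 := norm_sub_norm_le x₀ y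
      rw [norm_sub_rev] at h2
      linarith
    have hcomp : IsCompact (closure (K '' U)) := by
      have hK' : IsCompactOperator (K : X →ₗ[ℂ] X) := hK
      exact hK'.isCompact_closure_image_of_bounded (f := (K : X →ₗ[ℂ] X))
        Metric.isBounded_closedBall
    have hnz : ∀ y ∈ closure (K '' U), y ≠ 0 := by
      have hlow : ∀ y ∈ K '' U, ‖K x₀‖ - ‖K‖ ≤ ‖y‖ := by
        rintro _ ⟨x, hx, rfl⟩
        have h1 : ‖x - x₀‖ ≤ 1 := mem_closedBall_iff_norm.1 hx
        have h2 : ‖K (x - x₀)‖ ≤ ‖K‖ := by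
          calc ‖K (x - x₀)‖ ≤ ‖K‖ * ‖x - x₀‖ := K.le_opNorm _
            _ ≤ ‖K‖ * 1 := by gcongr
            _ = ‖K‖ := mul_one _
        have h3 := norm_sub_norm_le (K x₀) (K x)
        rw [norm_sub_rev, ← map_sub] at h3
        linarith
      have hcl : IsClosed {y : X | ‖K x₀‖ - ‖K‖ ≤ ‖y‖} :=
        isClosed_le continuous_const continuous_norm
      intro y hy h0
      have h4 : ‖K x₀‖ - ‖K‖ ≤ ‖y‖ := hcl.closure_subset_iff.2 hlow hy
      rw [h0, norm_zero] at h4
      linarith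
    -- every nonzero vector is cyclic for the commutant
    have hcyc : ∀ y : X, y ≠ 0 → ∃ S : X →L[ℂ] X, Commute S K ∧ S y ∈ Metric.ball x₀ 1 := by
      intro y hy
      let M : Submodule ℂ X := ((Subalgebra.centralizer ℂ {K}).toSubmodule.map
        ((ContinuousLinearMap.apply ℂ X y : (X →L[ℂ] X) →L[ℂ] X) :
          (X →L[ℂ] X) →ₗ[ℂ] X)).topologicalClosure
      have hMT : ∀ Q : X →L[ℂ] X, Q * K = K * Q → ∀ x ∈ M, Q x ∈ M := by
        intro Q hQ x hx
        have : M ≤ M.comap (Q : X →ₗ[ℂ] X) := by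
          refine Submodule.topologicalClosure_minimal _ ?_
            ((Submodule.isClosed_topologicalClosure _).preimage Q.continuous)
          rintro _ ⟨S, hS, rfl⟩
          refine Submodule.le_topologicalClosure _ ⟨Q * S, ?_, rfl⟩
          refine (Subalgebra.centralizer ℂ {K}).mul_mem ?_ hS
          rw [Subalgebra.mem_centralizer_iff]
          rintro _ rfl
          exact hQ.symm
        exact this hx
      have hyM : y ∈ M :=
        Submodule.le_topologicalClosure _ ⟨1, (Subalgebra.centralizer ℂ {K}).one_mem, rfl⟩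
      rcases hirr M (Submodule.isClosed_topologicalClosure _) hMT with h | h
      · exact absurd (by rw [h] at hyM; exact (Submodule.mem_bot ℂ).1 hyM) hy
      · have hx : x₀ ∈ M := by rw [h]; trivial
        obtain ⟨z, ⟨S, hS, rfl⟩, hz⟩ := Metric.mem_closure_iff.1 hx 1 one_pos
        refine ⟨S, ?_, ?_⟩
        · have hS' : S ∈ Subalgebra.centralizer ℂ {K} := hS
          have := (Subalgebra.mem_centralizer_iff ℂ).1 hS' K rfl
          exact this.symm
        · rw [Metric.mem_ball, dist_comm]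
          exact hz
    choose! S hS1 hS2 using hcyc
    -- finitely many suffice
    obtain ⟨t, ht1, ht2⟩ := hcomp.elim_nhds_subcover (fun y => (S y) ⁻¹' (Metric.ball x₀ 1))
      (fun y hy => ((S y).continuous.isOpen_preimage _ Metric.isOpen_ball).mem_nhds
        (hS2 y (hnz y hy)))
    obtain ⟨C, hC⟩ : ∃ C : ℝ, C = 1 + ∑ y ∈ t, ‖S y‖ := ⟨_, rfl⟩
    have hC0 : 0 < C := by rw [hC]; positivity
    have hSC : ∀ y ∈ t, ‖S y‖ ≤ C := by
      intro y hy
      have : ‖S y‖ ≤ ∑ y ∈ t, ‖S y‖ :=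
        Finset.single_le_sum (f := fun y => ‖S y‖) (fun _ _ => norm_nonneg _) hy
      rw [hC]; linarith
    have hiter : ∀ n : ℕ, ∃ R : X →L[ℂ] X, Commute R K ∧ ‖R‖ ≤ C ^ n ∧ (R * K ^ n) x₀ ∈ U := by
      intro n
      induction n with
      | zero =>
        refine ⟨1, Commute.one_left K, ?_, ?_⟩
        · rw [pow_zero]; exact ContinuousLinearMap.norm_id_le
        · rw [pow_zero, mul_one]
          simp [hU]
      | succ n ih =>
        obtain ⟨R, hR1, hR2, hR3⟩ := ih
        have h1 : K ((R * K ^ n) x₀) ∈ closure (K '' U) := subset_closure ⟨_, hR3, rfl⟩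
        obtain ⟨y, hy, hy2⟩ := Set.mem_iUnion₂.1 (ht2 h1)
        have hy0 : y ≠ 0 := hnz y (ht1 y hy)
        refine ⟨S y * R, (hS1 y hy0).mul_left hR1, ?_, ?_⟩
        · calc ‖S y * R‖ ≤ ‖S y‖ * ‖R‖ := norm_mul_le _ _
            _ ≤ C * C ^ n := mul_le_mul (hSC y hy) hR2 (norm_nonneg _) hC0.le
            _ = C ^ (n + 1) := by rw [pow_succ']
        · have h2 : (S y * R * K ^ (n + 1)) x₀ = S y (K ((R * K ^ n) x₀)) := by
            have h3 : R * K = K * R := hR1.eq
            have h4 : S y * R * K ^ (n + 1) = S y * (K * (R * K ^ n)) := by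
              rw [pow_succ', ← mul_assoc K R, ← h3]; simp only [mul_assoc]
            rw [h4]; rfl
          rw [h2]
          exact Metric.ball_subset_closedBall hy2
    set ε : ℝ := (‖x₀‖ - 1) / ‖x₀‖ with hε
    have hx0p : 0 < ‖x₀‖ := by linarith
    have hεp : 0 < ε := div_pos (by linarith) hx0p
    -- use a larger constant to beat `ε`
    have hbig : ∀ m : ℕ, ∃ n : ℕ, (2 : ℝ) ^ n * (C ^ n * ‖K ^ n‖) < 1 ∧ m ≤ n := by
      intro m
      by_contra hcon
      push Not at hcon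
      -- powers of a large constant
      obtain ⟨D, hD1, hD2⟩ : ∃ D : ℝ, 2 * C ≤ D ∧ ∀ j < m, 1 ≤ D ^ j * ‖K ^ j‖ := by
        have hpos : ∀ j : ℕ, 0 < ‖K ^ j‖ := by
          intro j
          rw [norm_pos_iff]
          intro h0
          obtain ⟨R, -, -, hR3⟩ := hiter j
          rw [h0, mul_zero] at hR3
          have := hUlow _ hR3
          simp at this
          linarith
        refine ⟨2 * C + ∑ j ∈ Finset.range m, (1 + 1 / ‖K ^ j‖), ?_, ?_⟩
        · have : 0 ≤ ∑ j ∈ Finset.range m, (1 + 1 / ‖K ^ j‖) :=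
            Finset.sum_nonneg fun j _ => by have := hpos j; positivity
          linarith
        · intro j hj
          set D : ℝ := 2 * C + ∑ j ∈ Finset.range m, (1 + 1 / ‖K ^ j‖) with hD
          rcases Nat.eq_zero_or_pos j with rfl | hj0
          · have hne : Nontrivial X :=
              ⟨x₀, 0, by intro h; rw [h, norm_zero] at hx0p; exact lt_irrefl _ hx0p⟩
            simp
          · have h1 : 1 + 1 / ‖K ^ j‖ ≤ ∑ j ∈ Finset.range m, (1 + 1 / ‖K ^ j‖) :=
              Finset.single_le_sum (f := fun j => 1 + 1 / ‖K ^ j‖)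
                (fun i _ => by have := hpos i; positivity) (Finset.mem_range.2 hj)
            have h2 : 1 ≤ D := by
              have := hpos j
              have : 0 < 1 / ‖K ^ j‖ := by positivity
              rw [hD]; linarith
            have h3 : 1 / ‖K ^ j‖ ≤ D := by rw [hD]; linarith
            have h4 : D ≤ D ^ j := le_self_pow₀ h2 (by omega)
            calc (1 : ℝ) = 1 / ‖K ^ j‖ * ‖K ^ j‖ := by
                  rw [one_div_mul_cancel (hpos j).ne']
              _ ≤ D ^ j * ‖K ^ j‖ := by gcongr; exact h3.trans h4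
      have hD0 : 0 < D := by linarith
      obtain ⟨n, hn⟩ := H307R3.RO.quasi K hK hev D hD0
      by_cases hnm : n < m
      · exact absurd hn (not_lt.2 (hD2 n hnm))
      · have h1 : (2 : ℝ) ^ n * (C ^ n * ‖K ^ n‖) < 1 := by
          rw [← mul_assoc, ← mul_pow]
          calc (2 * C) ^ n * ‖K ^ n‖ ≤ D ^ n * ‖K ^ n‖ := by gcongr
            _ < 1 := hn
        exact absurd (hcon n h1) (not_lt.2 (not_lt.1 hnm))
    obtain ⟨m, hm⟩ := pow_unbounded_of_one_lt (1 / ε) (by norm_num : (1 : ℝ) < 2)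
    obtain ⟨n, hn1, hn2⟩ := hbig m
    obtain ⟨R, -, hR2, hR3⟩ := hiter n
    have h1 := hUlow _ hR3
    have h2 : ‖(R * K ^ n) x₀‖ ≤ C ^ n * ‖K ^ n‖ * ‖x₀‖ := by
      calc ‖(R * K ^ n) x₀‖ ≤ ‖R * K ^ n‖ * ‖x₀‖ := ContinuousLinearMap.le_opNorm _ _
        _ ≤ (‖R‖ * ‖K ^ n‖) * ‖x₀‖ := by gcongr; exact norm_mul_le _ _
        _ ≤ C ^ n * ‖K ^ n‖ * ‖x₀‖ := by gcongr
    have h3 : ε ≤ C ^ n * ‖K ^ n‖ := by
      rw [hε, div_le_iff₀ hx0p]; linarith
    have h4 : 1 / ε < 2 ^ n := hm.trans_le (pow_le_pow_right₀ (by norm_num) hn2)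
    have h5 : 1 < 2 ^ n * ε := by rwa [div_lt_iff₀ hεp] at h4
    have h6 : (2 : ℝ) ^ n * ε ≤ 2 ^ n * (C ^ n * ‖K ^ n‖) := by gcongr
    linarith
  · push Not at hev
    obtain ⟨c, hc0, v, hv, hv0⟩ := hev
    let M : Submodule ℂ X := LinearMap.ker ((K - c • (1 : X →L[ℂ] X) : X →L[ℂ] X) : X →ₗ[ℂ] X)
    have hM : ∀ x, x ∈ M ↔ K x = c • x := by
      intro x
      rw [LinearMap.mem_ker]
      show K x - c • x = 0 ↔ _
      rw [sub_eq_zero]
    have hMc : IsClosed (M : Set X) := ContinuousLinearMap.isClosed_ker _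
    have hMT : ∀ Q : X →L[ℂ] X, Q * K = K * Q → ∀ x ∈ M, Q x ∈ M := by
      intro Q hQ x hx
      rw [hM] at hx ⊢
      have h1 : Q (K x) = K (Q x) := congrArg (fun S : X →L[ℂ] X => S x) hQ
      rw [← h1, hx, map_smul]
    rcases hirr M hMc hMT with h | h
    · exact absurd (by have := (hM v).2 hv; rw [h] at this; exact (Submodule.mem_bot ℂ).1 this) hv0
    · apply hns
      refine ⟨c, ContinuousLinearMap.ext fun x => ?_⟩
      have hx : x ∈ M := by rw [h]; trivial
      rw [(hM x).1 hx]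
      rfl

end Pool.Agent.W577.HI.G1
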